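import Pool.Agent.W659.SA.Defs

/-!
# SA-SZ: the number of the points of a hypersurface in a box (Schwartz-Zippel)
-/

namespace Pool.Agent.W417.SA.SZ

open MvPolynomial NumberField Pool.Agent.W659.SA

theorem main : S_SZ := by
  intro K _ _ N ω n Γ hΓ H
  classical
  let I : Finset ℤ := Finset.Icc (-(H:ℤ)) H
  let B0 : Finset (Fin N → ℤ) := Fintype.piFinset (fun _ => I)
  let e : (Fin N → ℤ) → K := fun b => ((∑ j, b j • ω j : 𝓞 K) : K)
  have he : Function.Injective e := by
    intro a b hab
    have h1 : (∑ j, a j • ω j : 𝓞 K) = ∑ j, b j • ω j := RingOfIntegers.coe_injective hab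
    have h2 := congrArg (fun x => ⇑(ω.repr x)) h1
    simp only [Module.Basis.repr_sum_self] at h2
    exact h2
  let B : Finset K := B0.image e
  have hB : B.card = (2 * H + 1) ^ N := by
    have : I.card = 2 * H + 1 := by
      simp only [I, Int.card_Icc]
      omega
    rw [Finset.card_image_of_injective _ he]
    simp only [B0, Fintype.card_piFinset, Finset.prod_const, this, Finset.card_univ,
      Fintype.card_fin]
  have hBpos : 0 < B.card := by rw [hB]; positivity
  have hsz := schwartz_zippel_totalDegree hΓ B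
  have h1 : (Finset.filter (fun f => eval f Γ = 0)
      (Fintype.piFinset fun _ : Fin (n + 1) => B)).card ≤
        Γ.totalDegree * (2 * H + 1) ^ (N * n) := by
    have hp : (0 : ℚ≥0) < (B.card : ℚ≥0) := by exact_mod_cast hBpos
    rw [div_le_iff₀ (by positivity), pow_succ] at hsz
    have h2 : (Γ.totalDegree : ℚ≥0) / (B.card : ℚ≥0) * ((B.card : ℚ≥0) ^ n * (B.card : ℚ≥0)) =
        (Γ.totalDegree : ℚ≥0) * (B.card : ℚ≥0) ^ n := by
      field_simp
    rw [h2, hB] at hsz
    rw [pow_mul]
    exact_mod_cast hsz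
  refine le_trans ?_ h1
  rw [← Set.ncard_coe_finset]
  refine Set.ncard_le_ncard_of_injOn (fun c i => ((vec ω c i : 𝓞 K) : K)) ?_ ?_
    (Finset.finite_toSet _)
  · rintro c ⟨hc1, hc2⟩
    simp only [Finset.coe_filter, Fintype.mem_piFinset, Set.mem_ofPred_eq]
    refine ⟨fun i => ?_, hc2⟩
    refine Finset.mem_image.2 ⟨fun j => c (i, j), ?_, rfl⟩
    simp only [B0, Fintype.mem_piFinset, I, Finset.mem_Icc]
    intro j
    exact abs_le.1 (hc1 (i, j))
  · intro c _ d _ hcd
    funext ij
    obtain ⟨i, j⟩ := ij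
    have h3 := congrFun hcd i
    have h4 : (fun j => c (i, j)) = fun j => d (i, j) := he h3
    exact congrFun h4 j

end Pool.Agent.W417.SA.SZ
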